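import Pool.Agent.E8helper20.CTK3.StmD
import Pool.Agent.Y703.XL.Stm

/-!
# Project CTL3 (helper20): the exact law of the Selmer groups for `y² + 3 D y = x³` over `ℚ(ω)`,
the counting parts

The parts L2, L3, L4 are the parts D4, D5, D6 of CTK3 with a general property `P` and constants `c`, `K`
in place of `Gd3`, `c9`, `3` (compare `Pool/Agent/R419/KL/{Key,Asy,Sum,NS}.lean` of helper419, the
same generalisation of `Pool/Agent/R419/KF`).
-/

set_option autoImplicit false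
set_option linter.unusedVariables false

open scoped Classical

namespace Pool.Agent.E8helper20.CTL3

open Finset
open Pool.Agent.Y692.QS (Ei w nr toC)
open Pool.Agent.Y715.T.Rec (cs)
open Pool.Agent.Y715.T.RecG (Pq)
open Pool.Agent.Y699.E (nrm)
open Pool.Agent.Y703.XK (sm la HB S_EQ S_BIL S_LOW prs)
open Pool.Agent.Y703.XL (cr)
open Pool.Agent.R419.KF (wt SG)
open Pool.Agent.E8helper20.CTK3 (S3 Nd3 RR3 BadC ClsC3 el3)

/-- the number of the solutions of the weighted Laplacian system with the additional vertex `3`, where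
`v` is zero -/
noncomputable def nS3 (M S : Finset Ei) : ℕ :=
  Nat.card {v : S → ZMod 3 // ∀ π : S, ∑ ρ : S, wt M ρ * cs π ρ * (v ρ - v π) = cs π 3 * v π}

/-- the pairs whose solution space has dimension `r` -/
def Gr3 (r : ℕ) (M S : Finset Ei) : Prop := nS3 M S = 3 ^ r

/-- the count in a box for a property `P` with the constants `c`, `K` -/
def BoxP (P : Finset Ei → Finset Ei → Prop) (c K : ℝ) : Prop :=
  ∀ (ι : Type) [Fintype ι] [LinearOrder ι]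
  (C : ι → Finset Ei) (X : ι → ℕ) (κ : ℝ) (M S₀ : Finset Ei), M ⊆ S₀ → 0 ≤ κ →
  (∀ i, (C i).card ≤ X i) → HB C X κ → (∀ u ∈ S₀, Pq u) → (∀ i, ∀ π ∈ C i, Pq π ∧ π ∉ S₀) →
  (∀ i l, i ≠ l → Disjoint (C i) (C l)) → S₀.card + 1 < Fintype.card ι →
  |(((Fintype.piFinset C).filter fun p => Nd3 S₀ (univ.image p) ∧
      P M (S₀ ∪ univ.image p)).card : ℝ) -
    c * (((Fintype.piFinset C).filter fun p => Nd3 S₀ (univ.image p)).card : ℝ)| ≤
  K * (3 ^ (S₀.card + 1) / 3 ^ Fintype.card ι) *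
    (((Fintype.piFinset C).filter fun p => Nd3 S₀ (univ.image p)).card : ℝ) +
  3 ^ ((S₀.card + 1) * Fintype.card ι + (prs ι).card) * (κ * ∏ j, (X j : ℝ))

/-- L1 BOXL: the count in a box for every rank (compare `Pool.Agent.R419.KL.t_BOXL` in
`R419/KL/Box.lean` and `Pool.Agent.E8helper51.CTK3.t_BOX3` in `E8helper51/CTK3/Box3.lean`; the system
with all the vertices `S ∪ {3}` has `3 * nS3 M S` solutions). -/
def S_BOXL : Prop := S_EQ → Pool.Agent.Y703.XL.S_LA → ∀ r : ℕ, BoxP (Gr3 r) (cr r) (3 ^ (r + 1))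

/-- the sum over the boxes -/
def KeyP (P : Finset Ei → Finset Ei → Prop) (c K : ℝ) : Prop := ∃ C : ℝ, 1 ≤ C ∧
  ∀ (M : Finset Ei) (X z H k V N : ℕ) (κ : ℝ), (∀ q ∈ M, nrm q ≤ z) → 1 ≤ V → 1 ≤ X → 1 ≤ H →
  1 ≤ z → 0 ≤ κ → C ≤ κ ^ 24 * z → (H : ℝ) * Real.log X < N →
  |(((RR3 M X z H k V).filter fun S => Nd3 (sm z S) (la z S) ∧ P M S).card : ℝ) -
      c * (((RR3 M X z H k V).filter fun S => Nd3 (sm z S) (la z S)).card : ℝ)| ≤
    K * (1 / 3 : ℝ) ^ V * ((RR3 M X z H k V).card : ℝ) +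
    (9 * N + 9 : ℝ) ^ k * (3 ^ (9 * k ^ 2 + 9) * κ) * (X * (1 + Real.log X))

/-- L2 KEYL: the sum over the boxes for a general property (copy of
`Pool.Agent.E8helper85.CTK3.t_KEY3` in `E8helper85/CTK3/Key.lean`). -/
def S_KEYL : Prop := S_BIL → ∀ (P : Finset Ei → Finset Ei → Prop) (c K : ℝ), 0 ≤ K →
  BoxP P c K → KeyP P c K

/-- the asymptotics for one `M` -/
def AsyP (P : Finset Ei → Finset Ei → Prop) (c : ℝ) : Prop :=
  ∀ (M : Finset Ei) (ε : ℝ), 0 < ε → ∃ X₀ : ℕ, ∀ X : ℕ, X₀ ≤ X →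
  |(((S3 M X).filter (P M)).card : ℝ) - c * ((S3 M X).card : ℝ)| ≤ ε * X

/-- L3 ASYL: (copy of `Pool.Agent.E8helper6.CTK3.t_ASY3` in `E8helper6/CTK3/Asy3.lean`; see also
`R419/KL/Asy.lean`). -/
def S_ASYL : Prop := ∀ (P : Finset Ei → Finset Ei → Prop) (c K : ℝ), 0 ≤ K → 0 ≤ c → c ≤ 1 →
  KeyP P c K → BadC → AsyP P c

/-- L4 DENL: (copy of `Pool.Agent.E8helper6.CTK3.t_DEN3K` in `E8helper6/CTK3/Den3.lean`; see also
`R419/KL/Sum.lean`). -/
def S_DENL : Prop := S_LOW → ∀ (P : Finset Ei → Finset Ei → Prop) (c : ℝ), 0 ≤ c → c ≤ 1 →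
  AsyP P c → ∀ T : Ei → Prop, (∀ M S : Finset Ei, (∀ π ∈ S, Pq π) → M ⊆ S → S.Nonempty →
      (T (el3 M S) ↔ P M S)) →
    Filter.Tendsto (fun X : ℕ => ({D : Ei | nr D ≤ X ∧ ClsC3 D ∧ T D}.ncard : ℝ) /
      ({D : Ei | nr D ≤ X ∧ ClsC3 D}.ncard : ℝ)) Filter.atTop (nhds c)

end Pool.Agent.E8helper20.CTL3
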