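import Pool.Agent.E8helper20.CTK3.NS
import Pool.Agent.E8helper20.CTL3.StmD
import Pool.Agent.Y696.XL.SelK

/-!
# Project CTL3 (helper20): the exact law of the Selmer groups for `y² + 3 D y = x³` over `ℚ(ω)`,
the arithmetic parts
-/

set_option autoImplicit false
set_option linter.unusedVariables false

open scoped Classical

namespace Pool.Agent.E8helper20.CTL3

open NumberField IsDedekindDomain WeierstrassCurve Finset
open Pool.Agent.Y692.QS (Ei nr)
open Pool.Agent.Y715.T.RecG (Pq)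
open Pool.Agent.Y703.CT (Dt pD)
open Pool.Agent.Y696.CTK (ED)
open Pool.Agent.XL6 (SelK)
open Pool.Agent.E8helper20.CT3 (KerV3)
open Pool.Agent.E8helper20.CTK3 (el3 IsFact3)

/-- the number of the solutions -/
noncomputable def nK3 {J : Type} [Fintype J] (π : J → Ei) (e : J → ZMod 3) : ℕ :=
  Nat.card {v : J → ZMod 3 // KerV3 π e v}

/-- L5 SELK3: the order of the Selmer group of `√-3` of `E_{3 D}` over `K`, and the bound for the rank
(compare `Pool.Agent.R419.KL.main_pi` in `R419/KL/NS.lean`, `Pool.Agent.XL6.sel_card` in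
`Y696/XL/Sel.lean` with `D` replaced by `3 D`; the local conditions at `3` and the Kummer generators
are in `E8helper23/CT3/SEL.lean`, `E8helper41/CTK3/Exl.lean`, `E8helper41/CTK3/Tri.lean`). -/
def S_SELK3 : Prop := ∀ (K : Type) [Field K] [NumberField K] (j : Ei ≃+* 𝓞 K)
  (J : Type) [Fintype J] [Nonempty J] (π : J → Ei) (e : J → ZMod 3), Dt π e →
    (SelK (j (3 * pD π e) : K)).ncard = 3 * nK3 π e ∧
    ∀ r : ℕ, nK3 π e ≤ 3 ^ r →
      Module.finrank ℤ (ED (j (3 * pD π e) : K)).toAffine.Point ≤ 2 * r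

/-- the number of the solutions of the weighted system of `χ`, `τ` -/
noncomputable def nL3 {n : ℕ} (e : Fin n → ZMod 3) (χ : Fin n → Fin n → ZMod 3)
    (τ : Fin n → ZMod 3) : ℕ :=
  Nat.card {v : Fin n → ZMod 3 // ∀ j, ∑ i, e i * χ j i * (v i - v j) = τ j * v j}

/-- L6 FACTL: (compare `Pool.Agent.E8helper71.CTK3.t_FACT3`, `Pool.Agent.R419.KL.ker_ncard`), the
number of the solutions is a power of `3`, and the data of a pair (compare
`Pool.Agent.E8helper20.CTK3.data3` in `E8helper20/CTK3/NS.lean` and `Pool.Agent.R419.KL.data2`). -/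
def S_FACTL : Prop :=
  (∀ (K : Type) [Field K] [NumberField K] (j : Ei ≃+* 𝓞 K),
    (∀ z : Ei, Algebra.norm ℤ (j z) = nr z) →
    ∀ (ω D : 𝓞 K) (n : ℕ) (π : Fin n → 𝓞 K) (e : Fin n → ZMod 3) (χ : Fin n → Fin n → ZMod 3)
      (τ : Fin n → ZMod 3), ω ^ 2 + ω + 1 = 0 → IsFact3 ω D n π e χ τ →
      nK3 (fun i => j.symm (π i)) e = nL3 e χ τ) ∧
  (∀ (J : Type) [Fintype J] (π : J → Ei) (e : J → ZMod 3), ∃ r : ℕ, nK3 π e = 3 ^ r) ∧
  ∀ M S : Finset Ei, (∀ q ∈ S, Pq q) → M ⊆ S → S.Nonempty →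
    ∃ (n : ℕ) (π : Fin (n + 1) → Ei) (e : Fin (n + 1) → ZMod 3), Dt π e ∧ el3 M S = pD π e ∧
      nS3 M S = nK3 π e

end Pool.Agent.E8helper20.CTL3
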